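import Mathlib

/-!
# Generation of the algebra of a Leonard system by initial `E*`'s and final `E`'s

For every Leonard system and every `0 ≤ r ≤ d`, the elements `E*_0, …, E*_r, E_r, …, E_d` generate
the algebra.
-/

set_option autoImplicit false

namespace Pool.Agent.Results.MP_9ad7dc_al.Generation

open Polynomial

universe u v

section Defs

variable (K : Type u) [Field K] {𝒜 : Type v} [Ring 𝒜] [Algebra K 𝒜] {d : ℕ}

/-- `X` is multiplicity-free, with `d + 1` mutually distinct eigenvalues `θ 0, …, θ d` in `K`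
(elements of the spectrum: `X - θ i` is not invertible), and `E i` is the primitive idempotent
`∏_{j ≠ i} (X - θ j) / (θ i - θ j)` of `X` for `θ i`. So `E` is an ordering of the primitive
idempotents of the multiplicity-free element `X`. -/
def IsIdempotentOrdering (X : 𝒜) (E : Fin (d + 1) → 𝒜) : Prop :=
  ∃ θ : Fin (d + 1) → K, Function.Injective θ ∧ (∀ i, θ i ∈ spectrum K X) ∧
    ∀ i, E i = aeval X (∏ j ∈ Finset.univ.erase i, C (θ i - θ j)⁻¹ * (Polynomial.X - C (θ j)))

/-- `(A; E_0, …, E_d; A*; E*_0, …, E*_d)` is a Leonard system in the `K`-algebra `𝒜`, which is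
isomorphic to the algebra of matrices of size `d + 1` over `K`. -/
structure IsLeonardSystem (A : 𝒜) (E : Fin (d + 1) → 𝒜) (As : 𝒜) (Es : Fin (d + 1) → 𝒜) :
    Prop where
  /-- the algebra is isomorphic to a full matrix algebra -/
  alg : Nonempty (𝒜 ≃ₐ[K] Matrix (Fin (d + 1)) (Fin (d + 1)) K)
  /-- `A` is multiplicity-free and `E` is an ordering of its primitive idempotents -/
  ord : IsIdempotentOrdering K A E
  /-- `A*` is multiplicity-free and `E*` is an ordering of its primitive idempotents -/
  ords : IsIdempotentOrdering K As Es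
  /-- `E_i A* E_j = 0` if `|i - j| > 1` -/
  zero : ∀ i j : Fin (d + 1), 1 < |(i : ℤ) - (j : ℤ)| → E i * As * E j = 0
  /-- `E_i A* E_j ≠ 0` if `|i - j| = 1` -/
  nonzero : ∀ i j : Fin (d + 1), |(i : ℤ) - (j : ℤ)| = 1 → E i * As * E j ≠ 0
  /-- `E*_i A E*_j = 0` if `|i - j| > 1` -/
  zeros : ∀ i j : Fin (d + 1), 1 < |(i : ℤ) - (j : ℤ)| → Es i * A * Es j = 0
  /-- `E*_i A E*_j ≠ 0` if `|i - j| = 1` -/
  nonzeros : ∀ i j : Fin (d + 1), |(i : ℤ) - (j : ℤ)| = 1 → Es i * A * Es j ≠ 0

end Defs

section Space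

variable {K : Type u} [Field K] {V : Type v} [AddCommGroup V] [Module K V] {d : ℕ}

/-- Leonard data on a vector space, in terms of eigenbases. -/
structure Data (A As : V →ₗ[K] V) (u us : Module.Basis (Fin (d + 1)) K V)
    (θ θs : Fin (d + 1) → K) : Prop where
  inj : Function.Injective θ
  injs : Function.Injective θs
  eig : ∀ i, A (u i) = θ i • u i
  eigs : ∀ i, As (us i) = θs i • us i
  zero : ∀ i j : Fin (d + 1), 1 < |(i : ℤ) - (j : ℤ)| → u.repr (As (u j)) i = 0
  nonzero : ∀ i j : Fin (d + 1), |(i : ℤ) - (j : ℤ)| = 1 → u.repr (As (u j)) i ≠ 0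
  zeros : ∀ i j : Fin (d + 1), 1 < |(i : ℤ) - (j : ℤ)| → us.repr (A (us j)) i = 0
  nonzeros : ∀ i j : Fin (d + 1), |(i : ℤ) - (j : ℤ)| = 1 → us.repr (A (us j)) i ≠ 0

variable {A As : V →ₗ[K] V} {u us : Module.Basis (Fin (d + 1)) K V} {θ θs : Fin (d + 1) → K}

/-- an `A`-invariant subspace that contains `us 0` contains every `us k` -/
lemma up (h : Data A As u us θ θs) (P : Submodule K V) (hP : ∀ v ∈ P, A v ∈ P)
    (h0 : us 0 ∈ P) : ∀ n : ℕ, ∀ k : Fin (d + 1), (k : ℕ) ≤ n → us k ∈ P := by
  intro n
  induction n with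
  | zero =>
    intro k hk
    have : k = 0 := Fin.ext (by simpa using hk)
    rwa [this]
  | succ n ih =>
    intro k hk
    rcases Nat.lt_or_ge (k : ℕ) (n + 1) with hlt | hge
    · exact ih k (by omega)
    · have hkn : (k : ℕ) = n + 1 := by omega
      let m : Fin (d + 1) := ⟨n, by omega⟩
      have hm : A (us m) ∈ P := hP _ (ih m le_rfl)
      have hs : A (us m) = ∑ i, us.repr (A (us m)) i • us i := (us.sum_repr _).symm
      rw [← Finset.add_sum_erase _ _ (Finset.mem_univ k)] at hs
      have hrest : ∑ i ∈ Finset.univ.erase k, us.repr (A (us m)) i • us i ∈ P := by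
        refine P.sum_mem fun i hi => ?_
        rw [Finset.mem_erase] at hi
        rcases Nat.lt_or_ge (i : ℕ) (n + 1) with hlt | hge'
        · exact P.smul_mem _ (ih i (by omega))
        · have hne : (i : ℕ) ≠ k := fun h' => hi.1 (Fin.ext h')
          rw [h.zeros i m (by simp only [m]; rw [lt_abs]; left; omega), zero_smul]
          exact P.zero_mem
      have hk' : us.repr (A (us m)) k • us k ∈ P := by
        have : us.repr (A (us m)) k • us k =
            A (us m) - ∑ i ∈ Finset.univ.erase k, us.repr (A (us m)) i • us i := by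
          rw [eq_sub_iff_add_eq]; exact hs.symm
        rw [this]
        exact P.sub_mem hm hrest
      have hne : us.repr (A (us m)) k ≠ 0 := by
        apply h.nonzeros
        simp only [m, hkn]; push_cast; simp
      exact (P.smul_mem_iff hne).1 hk'

lemma top_of_all (b : Module.Basis (Fin (d + 1)) K V) (P : Submodule K V) (h : ∀ k, b k ∈ P) :
    P = ⊤ := by
  rw [eq_top_iff, ← b.span_eq, Submodule.span_le]
  rintro _ ⟨k, rfl⟩
  exact h k

lemma up_top (h : Data A As u us θ θs) (P : Submodule K V) (hP : ∀ v ∈ P, A v ∈ P)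
    (h0 : us 0 ∈ P) : P = ⊤ :=
  top_of_all us P fun k => up h P hP h0 k k le_rfl

/-- an `As`-invariant subspace that contains `u (last)` contains every `u k` -/
lemma down (h : Data A As u us θ θs) (P : Submodule K V) (hP : ∀ v ∈ P, As v ∈ P)
    (h0 : u (Fin.last d) ∈ P) : ∀ n : ℕ, ∀ k : Fin (d + 1), d ≤ (k : ℕ) + n → u k ∈ P := by
  intro n
  induction n with
  | zero =>
    intro k hk
    have : k = Fin.last d := Fin.ext (by simp only [Fin.val_last]; omega)
    rwa [this]
  | succ n ih =>
    intro k hk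
    rcases Nat.lt_or_ge ((k : ℕ) + n) d with hlt | hge
    · let m : Fin (d + 1) := ⟨(k : ℕ) + 1, by omega⟩
      have hmv : (m : ℕ) = k + 1 := rfl
      have hm : As (u m) ∈ P := hP _ (ih m (by omega))
      have hs : As (u m) = ∑ i, u.repr (As (u m)) i • u i := (u.sum_repr _).symm
      rw [← Finset.add_sum_erase _ _ (Finset.mem_univ k)] at hs
      have hrest : ∑ i ∈ Finset.univ.erase k, u.repr (As (u m)) i • u i ∈ P := by
        refine P.sum_mem fun i hi => ?_
        rw [Finset.mem_erase] at hi
        have hne : (i : ℕ) ≠ k := fun h' => hi.1 (Fin.ext h')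
        rcases Nat.lt_or_ge (k : ℕ) (i : ℕ) with hlt' | hge'
        · exact P.smul_mem _ (ih i (by omega))
        · rw [h.zero i m (by rw [lt_abs]; right; rw [hmv]; push_cast; omega), zero_smul]
          exact P.zero_mem
      have hk' : u.repr (As (u m)) k • u k ∈ P := by
        have : u.repr (As (u m)) k • u k =
            As (u m) - ∑ i ∈ Finset.univ.erase k, u.repr (As (u m)) i • u i := by
          rw [eq_sub_iff_add_eq]; exact hs.symm
        rw [this]
        exact P.sub_mem hm hrest
      have hne : u.repr (As (u m)) k ≠ 0 := by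
        apply h.nonzero
        rw [hmv]; push_cast; simp
      exact (P.smul_mem_iff hne).1 hk'
    · exact ih k (by omega)

lemma repr_eig (h : Data A As u us θ θs) (v : V) (i : Fin (d + 1)) :
    u.repr (A v) i = θ i * u.repr v i := by
  conv_lhs => rw [← u.sum_repr v]
  simp only [map_sum, map_smul, h.eig, Finsupp.coe_finsetSum, Finset.sum_apply,
    Finsupp.smul_apply, Module.Basis.repr_self, smul_eq_mul]
  rw [Finset.sum_eq_single i]
  · simp; ring
  · intro b _ hb
    rw [Finsupp.single_eq_of_ne (Ne.symm hb)]; simp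
  · simp

lemma repr_eigs (h : Data A As u us θ θs) (v : V) (i : Fin (d + 1)) :
    us.repr (As v) i = θs i * us.repr v i := by
  conv_lhs => rw [← us.sum_repr v]
  simp only [map_sum, map_smul, h.eigs, Finsupp.coe_finsetSum, Finset.sum_apply,
    Finsupp.smul_apply, Module.Basis.repr_self, smul_eq_mul]
  rw [Finset.sum_eq_single i]
  · simp; ring
  · intro b _ hb
    rw [Finsupp.single_eq_of_ne (Ne.symm hb)]; simp
  · simp

/-- all coordinates of `us 0` with respect to `u` are nonzero -/
lemma coord_ne (h : Data A As u us θ θs) (i : Fin (d + 1)) : u.repr (us 0) i ≠ 0 := by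
  intro h0
  have h1 := up_top h (LinearMap.ker (u.coord i))
    (fun v hv => by
      rw [LinearMap.mem_ker, Module.Basis.coord_apply] at hv ⊢
      rw [repr_eig h, hv, mul_zero]) (by
      rw [LinearMap.mem_ker, Module.Basis.coord_apply]; exact h0)
  have h2 : u i ∈ LinearMap.ker (u.coord i) := by rw [h1]; trivial
  rw [LinearMap.mem_ker, Module.Basis.coord_apply, Module.Basis.repr_self] at h2
  simp at h2

/-- all coordinates of `u (last)` with respect to `us` are nonzero -/
lemma coords_ne (h : Data A As u us θ θs) (i : Fin (d + 1)) :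
    us.repr (u (Fin.last d)) i ≠ 0 := by
  intro h0
  have h1 : LinearMap.ker (us.coord i) = ⊤ := top_of_all u _ fun k =>
    down h (LinearMap.ker (us.coord i))
    (fun v hv => by
      rw [LinearMap.mem_ker, Module.Basis.coord_apply] at hv ⊢
      rw [repr_eigs h, hv, mul_zero]) (by
      rw [LinearMap.mem_ker, Module.Basis.coord_apply]; exact h0) d k (by omega)
  have h2 : us i ∈ LinearMap.ker (us.coord i) := by rw [h1]; trivial
  rw [LinearMap.mem_ker, Module.Basis.coord_apply, Module.Basis.repr_self] at h2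
  simp at h2

/-- a product of `n` factors `A - c` maps `us 0` into the span of `us 0, …, us n` -/
lemma prod_mem (h : Data A As u us θ θs) (r : ℕ) (S : Finset (Fin (d + 1))) :
    S.card ≤ r → ∃ c : Fin (d + 1) → K, (∀ j : Fin (d + 1), S.card < (j : ℕ) → c j = 0) ∧
      aeval A (∏ j ∈ S, (Polynomial.X - C (θ j))) (us 0) = ∑ j, c j • us j := by
  induction S using Finset.induction_on with
  | empty =>
    intro _
    refine ⟨Pi.single 0 1, ?_, ?_⟩
    · intro j hj
      rw [Pi.single_eq_of_ne]
      rintro rfl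
      simp at hj
    · simp [Pi.single_apply]
  | insert a S ha ih =>
    intro hc
    rw [Finset.card_insert_of_notMem ha] at hc ⊢
    obtain ⟨c, hc1, hc2⟩ := ih (by omega)
    rw [Finset.prod_insert ha, map_mul, Module.End.mul_apply, hc2]
    refine ⟨fun i => ∑ j, c j * us.repr (A (us j)) i - θ a * c i, ?_, ?_⟩
    · intro i hi
      have h1 : c i = 0 := hc1 i (by omega)
      show ∑ j, c j * us.repr (A (us j)) i - θ a * c i = 0
      rw [h1, mul_zero, sub_zero]
      refine Finset.sum_eq_zero fun j _ => ?_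
      rcases Nat.lt_or_ge S.card (j : ℕ) with hlt | hge
      · rw [hc1 j hlt, zero_mul]
      · rw [h.zeros i j (by rw [lt_abs]; left; omega), mul_zero]
    · have e1 : ∀ j, A (us j) = ∑ i, us.repr (A (us j)) i • us i := fun j =>
        (us.sum_repr (A (us j))).symm
      have e2 : A (∑ j, c j • us j) = ∑ i, (∑ j, c j * us.repr (A (us j)) i) • us i := by
        rw [map_sum]
        simp only [map_smul, Finset.sum_smul, mul_smul]
        rw [Finset.sum_comm]
        refine Finset.sum_congr rfl fun j _ => ?_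
        rw [← Finset.smul_sum, ← e1 j]
      simp only [map_sub, aeval_X, aeval_C, LinearMap.sub_apply, Module.algebraMap_end_apply, e2,
        sub_smul, Finset.sum_sub_distrib, Finset.smul_sum, mul_smul]

lemma aeval_repr (h : Data A As u us θ θs) (p : K[X]) (v : V) (i : Fin (d + 1)) :
    u.repr (aeval A p v) i = p.eval (θ i) * u.repr v i := by
  induction p using Polynomial.induction_on' with
  | add p q hp hq => simp [add_mul, hp, hq]
  | monomial n a =>
    have : ∀ n : ℕ, u.repr ((A ^ n) v) i = θ i ^ n * u.repr v i := by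
      intro n
      induction n with
      | zero => simp
      | succ n ih =>
        rw [pow_succ', Module.End.mul_apply, repr_eig h, ih]; ring
    simp [aeval_monomial, this]
    ring

/-- A subspace that contains `us 0` and is invariant under the projections to `us 0, …, us r`
and `u r, …, u d` is everything. -/
theorem main (h : Data A As u us θ θs) (r : ℕ) (hr : r ≤ d) (W : Submodule K V)
    (h0 : us 0 ∈ W)
    (h1 : ∀ i : Fin (d + 1), (i : ℕ) ≤ r → ∀ v ∈ W, us.repr v i • us i ∈ W)
    (h2 : ∀ i : Fin (d + 1), r ≤ (i : ℕ) → ∀ v ∈ W, u.repr v i • u i ∈ W) : W = ⊤ := by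
  -- the vectors `u i`, `i ≥ r`
  have hu : ∀ i : Fin (d + 1), r ≤ (i : ℕ) → u i ∈ W := fun i hi =>
    (W.smul_mem_iff (coord_ne h i)).1 (h2 i hi _ h0)
  have hl : u (Fin.last d) ∈ W := hu _ (by simpa using hr)
  have hus : ∀ i : Fin (d + 1), (i : ℕ) ≤ r → us i ∈ W := fun i hi =>
    (W.smul_mem_iff (coords_ne h i)).1 (h1 i hi _ hl)
  -- now show that `u i ∈ W` for `i < r`
  refine top_of_all u W fun i => ?_
  rcases Nat.lt_or_ge (i : ℕ) r with hlt | hge
  swap
  · exact hu i hge
  let S : Finset (Fin (d + 1)) := (Finset.univ.filter fun j : Fin (d + 1) => (j : ℕ) < r).erase i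
  have hcard : S.card + 1 = r := by
    have hmem : i ∈ Finset.univ.filter fun j : Fin (d + 1) => (j : ℕ) < r := by simp [hlt]
    rw [Finset.card_erase_add_one hmem]
    have : (Finset.univ.filter fun j : Fin (d + 1) => (j : ℕ) < r) =
        Finset.Iio (⟨r, by omega⟩ : Fin (d + 1)) := by
      ext j; simp [Fin.lt_def]
    rw [this, Fin.card_Iio]
  obtain ⟨c, hc1, hc2⟩ := prod_mem h r S (by omega)
  have hz : aeval A (∏ j ∈ S, (Polynomial.X - C (θ j))) (us 0) ∈ W := by
    rw [hc2]
    refine W.sum_mem fun j _ => ?_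
    rcases Nat.lt_or_ge S.card (j : ℕ) with hlt' | hge'
    · rw [hc1 j hlt', zero_smul]; exact W.zero_mem
    · exact W.smul_mem _ (hus j (by omega))
  have hs := (u.sum_repr (aeval A (∏ j ∈ S, (Polynomial.X - C (θ j))) (us 0))).symm
  rw [← Finset.add_sum_erase _ _ (Finset.mem_univ i)] at hs
  have hrest : ∑ k ∈ Finset.univ.erase i,
      u.repr (aeval A (∏ j ∈ S, (Polynomial.X - C (θ j))) (us 0)) k • u k ∈ W := by
    refine W.sum_mem fun k hk => ?_
    rw [Finset.mem_erase] at hk
    rcases Nat.lt_or_ge (k : ℕ) r with hlt' | hge'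
    · rw [aeval_repr h, eval_prod, Finset.prod_eq_zero (i := k), zero_mul, zero_smul]
      · exact W.zero_mem
      · simp [S, hk.1, hlt']
      · simp
    · exact W.smul_mem _ (hu k hge')
  have hi' : u.repr (aeval A (∏ j ∈ S, (Polynomial.X - C (θ j))) (us 0)) i • u i ∈ W := by
    have : u.repr (aeval A (∏ j ∈ S, (Polynomial.X - C (θ j))) (us 0)) i • u i =
        aeval A (∏ j ∈ S, (Polynomial.X - C (θ j))) (us 0) - ∑ k ∈ Finset.univ.erase i,
          u.repr (aeval A (∏ j ∈ S, (Polynomial.X - C (θ j))) (us 0)) k • u k := by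
      rw [eq_sub_iff_add_eq]; exact hs.symm
    rw [this]
    exact W.sub_mem hz hrest
  have hne : u.repr (aeval A (∏ j ∈ S, (Polynomial.X - C (θ j))) (us 0)) i ≠ 0 := by
    rw [aeval_repr h]
    refine mul_ne_zero ?_ (coord_ne h i)
    rw [eval_prod, Finset.prod_ne_zero_iff]
    intro j hj
    have hji : j ≠ i := by
      rintro rfl; simp [S] at hj
    simp only [eval_sub, eval_X, eval_C]
    exact sub_ne_zero.2 fun h' => hji (h.inj h').symm
  exact (W.smul_mem_iff hne).1 hi'

/-- the data of the dual space -/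
lemma dual (h : Data A As u us θ θs) :
    Data (V := Module.Dual K V) A.dualMap As.dualMap u.dualBasis us.dualBasis θ θs where
  inj := h.inj
  injs := h.injs
  eig i := by
    ext v
    simp [LinearMap.dualMap_apply, repr_eig h]
  eigs i := by
    ext v
    simp [LinearMap.dualMap_apply, repr_eigs h]
  zero i j hij := by
    rw [Module.Basis.dualBasis_repr]
    simp [LinearMap.dualMap_apply]
    apply h.zero
    rwa [abs_sub_comm]
  nonzero i j hij := by
    rw [Module.Basis.dualBasis_repr]
    simp [LinearMap.dualMap_apply]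
    apply h.nonzero
    rwa [abs_sub_comm]
  zeros i j hij := by
    rw [Module.Basis.dualBasis_repr]
    simp [LinearMap.dualMap_apply]
    apply h.zeros
    rwa [abs_sub_comm]
  nonzeros i j hij := by
    rw [Module.Basis.dualBasis_repr]
    simp [LinearMap.dualMap_apply]
    apply h.nonzeros
    rwa [abs_sub_comm]

/-- the algebra generated by the projections is everything -/
theorem adjoin_eq_top (h : Data A As u us θ θs) (r : ℕ) (hr : r ≤ d)
    (B : Subalgebra K (Module.End K V))
    (hB1 : ∀ i : Fin (d + 1), (i : ℕ) ≤ r → (us.coord i).smulRight (us i) ∈ B)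
    (hB2 : ∀ i : Fin (d + 1), r ≤ (i : ℕ) → (u.coord i).smulRight (u i) ∈ B) : B = ⊤ := by
  have hW : ∀ w : V, ∃ b ∈ B, b (us 0) = w := by
    let W : Submodule K V := (Subalgebra.toSubmodule B).map (LinearMap.applyₗ (us 0))
    have hWd : ∀ v, v ∈ W ↔ ∃ b ∈ B, b (us 0) = v := by
      intro v
      simp only [W, Submodule.mem_map, Subalgebra.mem_toSubmodule, LinearMap.applyₗ_apply_apply]
    have hWt : W = ⊤ := by
      apply main h r hr W
      · exact (hWd _).2 ⟨1, B.one_mem, rfl⟩
      · intro i hi v hv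
        obtain ⟨b, hb, rfl⟩ := (hWd _).1 hv
        exact (hWd _).2 ⟨_, B.mul_mem (hB1 i hi) hb, by simp⟩
      · intro i hi v hv
        obtain ⟨b, hb, rfl⟩ := (hWd _).1 hv
        exact (hWd _).2 ⟨_, B.mul_mem (hB2 i hi) hb, by simp⟩
    intro w
    exact (hWd w).1 (by rw [hWt]; trivial)
  have hW' : ∀ ψ : Module.Dual K V, ∃ b ∈ B, (us.coord 0).comp b = ψ := by
    let W : Submodule K (Module.Dual K V) :=
      { carrier := {ψ | ∃ b ∈ B, (us.coord 0).comp b = ψ}
        add_mem' := by
          rintro _ _ ⟨b, hb, rfl⟩ ⟨b', hb', rfl⟩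
          exact ⟨b + b', B.add_mem hb hb', by rw [LinearMap.comp_add]⟩
        zero_mem' := ⟨0, B.zero_mem, by rw [LinearMap.comp_zero]⟩
        smul_mem' := by
          rintro c _ ⟨b, hb, rfl⟩
          exact ⟨c • b, B.smul_mem hb c, by rw [LinearMap.comp_smul]⟩ }
    have hWd : ∀ ψ, ψ ∈ W ↔ ∃ b ∈ B, (us.coord 0).comp b = ψ := fun ψ => Iff.rfl
    have hWt : W = ⊤ := by
      apply main (dual h) r hr W
      · exact (hWd _).2 ⟨1, B.one_mem, by
          ext v; simp⟩
      · intro i hi ψ hψ
        obtain ⟨b, hb, rfl⟩ := (hWd _).1 hψ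
        refine (hWd _).2 ⟨_, B.mul_mem hb (hB1 i hi), ?_⟩
        ext v
        simp [Module.Basis.dualBasis_repr, mul_comm]
      · intro i hi ψ hψ
        obtain ⟨b, hb, rfl⟩ := (hWd _).1 hψ
        refine (hWd _).2 ⟨_, B.mul_mem hb (hB2 i hi), ?_⟩
        ext v
        simp [Module.Basis.dualBasis_repr, mul_comm]
    intro w
    exact (hWd w).1 (by rw [hWt]; trivial)
  rw [eq_top_iff]
  intro X _
  have hX : X = ∑ j, (u.coord j).smulRight (X (u j)) := by
    refine LinearMap.ext fun v => ?_
    have e1 : X v = X (∑ j, u.repr v j • u j) := by rw [u.sum_repr v]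
    rw [e1, map_sum]
    simp only [map_smul, LinearMap.sum_apply, LinearMap.smulRight_apply, Module.Basis.coord_apply]
  rw [hX]
  refine B.sum_mem fun j _ => ?_
  obtain ⟨b, hb, hb'⟩ := hW (X (u j))
  obtain ⟨c, hc, hc'⟩ := hW' (u.coord j)
  have : (u.coord j).smulRight (X (u j)) = b * (us.coord 0).smulRight (us 0) * c := by
    ext v
    rw [← hc', ← hb']
    simp
  rw [this]
  exact B.mul_mem (B.mul_mem hb (hB1 0 (by simp))) hc

end Space

section Alg

variable {K : Type u} [Field K] {V : Type v} [AddCommGroup V] [Module K V] {d : ℕ}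

/-- an eigenbasis for an ordering of primitive idempotents -/
lemma eigenbasis [FiniteDimensional K V] (hV : Module.finrank K V = d + 1) (X : Module.End K V)
    (E : Fin (d + 1) → Module.End K V) (h : IsIdempotentOrdering K X E) :
    ∃ (θ : Fin (d + 1) → K) (u : Module.Basis (Fin (d + 1)) K V), Function.Injective θ ∧
      (∀ i, X (u i) = θ i • u i) ∧ ∀ i, E i = (u.coord i).smulRight (u i) := by
  obtain ⟨θ, hθ, hsp, hE⟩ := h
  have hev : ∀ i, Module.End.HasEigenvalue X (θ i) := fun i =>
    Module.End.hasEigenvalue_iff_mem_spectrum.2 (hsp i)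
  choose w hw using fun i => (hev i).exists_hasEigenvector
  have hli : LinearIndependent K w := Module.End.eigenvectors_linearIndependent' X θ hθ w hw
  let u : Module.Basis (Fin (d + 1)) K V :=
    basisOfLinearIndependentOfCardEqFinrank hli (by simp [hV])
  have huw : ∀ i, u i = w i := fun i => by simp [u]
  refine ⟨θ, u, hθ, fun i => ?_, fun i => ?_⟩
  · rw [huw]; exact (hw i).apply_eq_smul
  · refine u.ext fun j => ?_
    rw [hE i, huw j, Module.End.aeval_apply_of_hasEigenvector (hw j), ← huw j]
    simp only [LinearMap.smulRight_apply, Module.Basis.coord_apply, Module.Basis.repr_self]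
    rw [eval_prod]
    rcases eq_or_ne i j with rfl | hij
    · rw [Finset.prod_eq_one]
      · simp
      · intro k hk
        rw [Finset.mem_erase] at hk
        simp only [eval_mul, eval_C, eval_sub, eval_X]
        exact inv_mul_cancel₀ (sub_ne_zero.2 fun h' => hk.1 (hθ h').symm)
    · rw [Finset.prod_eq_zero (i := j)]
      · rw [Finsupp.single_eq_of_ne hij]; simp
      · simp [Ne.symm hij]
      · simp

end Alg

/-- For every field `K`, every `d`, every Leonard system in an algebra isomorphic to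
`Mat_{d+1}(K)` and every `0 ≤ r ≤ d`, the elements `E*_0, …, E*_r, E_r, …, E_d` generate the
algebra. -/
theorem result (K : Type u) [Field K] (𝒜 : Type v) [Ring 𝒜] [Algebra K 𝒜] (d : ℕ)
    (A : 𝒜) (E : Fin (d + 1) → 𝒜) (As : 𝒜) (Es : Fin (d + 1) → 𝒜)
    (h : IsLeonardSystem K A E As Es) (r : ℕ) (hr : r ≤ d) :
    Algebra.adjoin K ({x | ∃ i : Fin (d + 1), (i : ℕ) ≤ r ∧ x = Es i} ∪
      {x | ∃ i : Fin (d + 1), r ≤ (i : ℕ) ∧ x = E i}) = ⊤ := by
  obtain ⟨e⟩ := h.alg
  let f : 𝒜 ≃ₐ[K] Module.End K (Fin (d + 1) → K) := e.trans Matrix.toLinAlgEquiv'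
  have tr : ∀ (X : 𝒜) (E : Fin (d + 1) → 𝒜), IsIdempotentOrdering K X E →
      IsIdempotentOrdering K (f X) (fun i => f (E i)) := by
    rintro X E ⟨θ, h1, h2, h3⟩
    refine ⟨θ, h1, fun i => ?_, fun i => ?_⟩
    · rw [AlgEquiv.spectrum_eq]; exact h2 i
    · show f (E i) = _
      rw [h3 i]
      exact (aeval_algHom_apply f.toAlgHom X _).symm
  obtain ⟨θ, u, hθ, hu, hE⟩ := eigenbasis (by simp) _ _ (tr A E h.ord)
  obtain ⟨θs, us, hθs, hus, hEs⟩ := eigenbasis (by simp) _ _ (tr As Es h.ords)
  have conv : ∀ (b : Module.Basis (Fin (d + 1)) K (Fin (d + 1) → K))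
      (Y : Module.End K (Fin (d + 1) → K)) (i j : Fin (d + 1)),
      (b.coord i).smulRight (b i) * Y * (b.coord j).smulRight (b j) = 0 ↔
        b.repr (Y (b j)) i = 0 := by
    intro b Y i j
    constructor
    · intro h0
      have h1 := congrArg (fun T => b.repr (T (b j)) i) h0
      simpa using h1
    · intro h0
      ext v
      simp [h0]
  have hD : Data (f A) (f As) u us θ θs := by
    refine ⟨hθ, hθs, hu, hus, ?_, ?_, ?_, ?_⟩
    · intro i j hij
      have := congrArg f (h.zero i j hij)
      rw [map_mul, map_mul, map_zero, hE i, hE j] at this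
      exact (conv u _ i j).1 this
    · intro i j hij h0
      apply h.nonzero i j hij
      apply f.injective
      rw [map_mul, map_mul, map_zero, hE i, hE j]
      exact (conv u _ i j).2 h0
    · intro i j hij
      have := congrArg f (h.zeros i j hij)
      rw [map_mul, map_mul, map_zero, hEs i, hEs j] at this
      exact (conv us _ i j).1 this
    · intro i j hij h0
      apply h.nonzeros i j hij
      apply f.injective
      rw [map_mul, map_mul, map_zero, hEs i, hEs j]
      exact (conv us _ i j).2 h0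
  set S : Set 𝒜 := {x | ∃ i : Fin (d + 1), (i : ℕ) ≤ r ∧ x = Es i} ∪
      {x | ∃ i : Fin (d + 1), r ≤ (i : ℕ) ∧ x = E i} with hS
  have key := adjoin_eq_top hD r hr ((Algebra.adjoin K S).map (f : 𝒜 →ₐ[K] _))
    (fun i hi => by
      rw [← hEs i]
      exact ⟨Es i, Algebra.subset_adjoin (Or.inl ⟨i, hi, rfl⟩), rfl⟩)
    (fun i hi => by
      rw [← hE i]
      exact ⟨E i, Algebra.subset_adjoin (Or.inr ⟨i, hi, rfl⟩), rfl⟩)
  rw [eq_top_iff]
  intro x _
  have hx : f x ∈ (Algebra.adjoin K S).map (f : 𝒜 →ₐ[K] _) := by rw [key]; trivial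
  obtain ⟨y, hy, hyx⟩ := hx
  have : y = x := f.injective hyx
  rwa [← this]

end Pool.Agent.Results.MP_9ad7dc_al.Generation
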